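import Pool.Agent.W945.Sos.Fin

/-!
# Sums of squares of short combinations of one long polynomial and one product of powers

Let `g` be any polynomial (`t` monomials) and `Q` a polynomial with `P Q' = L Q`, where `P`, `L` have at
most `l` monomials; for example a product of powers of short polynomials (part 3; `Q` itself may have
any number of monomials). Every nonzero combination `∑ c i * (m i * g + r i * Q) ^ 2`, where the `m i`
and `r i` have together at most `k` monomials, has at most `164 l ^ 3 k ^ 12 (t + 1)` distinct real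
roots: linear in `t`. More generally this holds for `A g ^ 2 + B g Q + D Q ^ 2` with `A`, `B`, `D`
short. Hence the inequality of the question holds for such representations, with a constant which
depends on `k` and `l` only.

*The proof.* With `E = B ^ 2 - 4 A D` and `u = 2 A g + B Q` we have `4 A f = u ^ 2 - E Q ^ 2`. Between
two roots of `F` without a root of `H` in between lies a root of the Wronskian `F' H - F H'` (Rolle for
`F / H`). For `F = u ^ 2 - E Q ^ 2`, `H = E Q ^ 2` the Wronskian times `P` is the product of `u`, `Q ^ 2`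
and `U + V Q` with `U` sparse (linear in `g` and `g'`) and `V` short. A second Wronskian, of `U + V Q`
and `V Q`, leaves a polynomial with `O(t)` monomials, and Descartes' rule applies.
-/

namespace Pool.Agent.Results.MP_5180ba_lc.OneLongPolynomial

open Polynomial Finset

/-- **One long polynomial.** Part 1: `A g ^ 2 + B g Q + D Q ^ 2`. Part 2: sums of squares of
`m i * g + r i * Q`; if `g = p j` is one of the polynomials, the number of real roots is at most a
constant (depending on `k`, `l`) times the support-sum. Part 3: products of powers satisfy the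
condition on `Q` with `P = ∏ q i`. -/
theorem result :
    (∀ (P L Q : ℝ[X]) (l : ℕ), P ≠ 0 → Q ≠ 0 → P * derivative Q = L * Q →
      P.support.card ≤ l → L.support.card ≤ l →
      (∀ (A B D g : ℝ[X]) (k : ℕ), A.support.card ≤ k → B.support.card ≤ k → D.support.card ≤ k →
        A * g ^ 2 + B * g * Q + D * Q ^ 2 ≠ 0 →
        (A * g ^ 2 + B * g * Q + D * Q ^ 2).roots.toFinset.card ≤
          164 * (l ^ 3 * k ^ 6 * (g.support.card + 1))) ∧
      (∀ (ι : Type) (s : Finset ι) (c : ι → ℝ) (p m r : ι → ℝ[X]) (g : ℝ[X]) (k : ℕ),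
        (∀ i ∈ s, p i = m i * g + r i * Q) →
        ∑ i ∈ s, ((m i).support.card + (r i).support.card) ≤ k →
        ∑ i ∈ s, C (c i) * p i ^ 2 ≠ 0 →
        (∑ i ∈ s, C (c i) * p i ^ 2).roots.toFinset.card ≤
          164 * (l ^ 3 * k ^ 12 * (g.support.card + 1)) ∧
        ∀ j ∈ s, p j = g →
          (∑ i ∈ s, C (c i) * p i ^ 2).roots.toFinset.card ≤
            328 * (l ^ 3 * k ^ 12 * ∑ i ∈ s, (p i).support.card))) ∧
    ∀ (ι : Type) (s : Finset ι) (q : ι → ℝ[X]) (N : ι → ℕ),
      ∃ L : ℝ[X], (∏ i ∈ s, q i) * derivative (∏ i ∈ s, q i ^ N i) = L * ∏ i ∈ s, q i ^ N i ∧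
        (∏ i ∈ s, q i).support.card ≤ ∏ i ∈ s, (q i).support.card ∧
        L.support.card ≤ s.card * ∏ i ∈ s, (q i).support.card := by
  refine ⟨?_, ?_⟩
  · intro P L Q l hP hQ h hPl hLl
    refine ⟨?_, ?_⟩
    · intro A B D g k hA hB hD hf
      exact Pool.Agent.W945.Sos.quad P L Q A B D g hP hQ h k l _ hPl hLl hA hB hD le_rfl hf
    · intro ι s c p m r g k hp hk hf
      refine ⟨Pool.Agent.W945.Sos.sos P L Q l hP hQ h hPl hLl ι s c p m r g k hp hk hf, ?_⟩
      intro j hj hpj
      subst hpj
      exact Pool.Agent.W945.Sos.sos_total P L Q l hP hQ h hPl hLl ι s c p m r j hj k hp hk hf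
  · intro ι s q N
    obtain ⟨L, h1, h2⟩ := Pool.Agent.W945.Sos.prods s q N
    exact ⟨L, h1, Pool.Agent.W945.Sos.mo_prod s q, h2⟩

end Pool.Agent.Results.MP_5180ba_lc.OneLongPolynomial
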